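import Mathlib

set_option maxHeartbeats 400000

open Set Filter Topology

namespace Pool.Agent.Results.MP_6d826c_an.Counter

/-- uniform convexity -/
def UnifConvex (X : Type) [NormedAddCommGroup X] [NormedSpace ℝ X] : Prop :=
  ∀ ε : ℝ, 0 < ε → ε ≤ 2 → ∃ δ : ℝ, 0 < δ ∧ ∀ x y : X, ‖x‖ ≤ 1 → ‖y‖ ≤ 1 → ε ≤ ‖x - y‖ →
    ‖(1 / 2 : ℝ) • (x + y)‖ ≤ 1 - δ

/-- M embeds isometrically into X -/
def IsoEmb (M X : Type) [MetricSpace M] [NormedAddCommGroup X] : Prop :=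
  ∃ f : M → X, ∀ a b, ‖f a - f b‖ = dist a b

/-- M embeds almost isometrically into X -/
def AlmostIsoEmb (M X : Type) [MetricSpace M] [NormedAddCommGroup X] : Prop :=
  ∀ ε : ℝ, 0 < ε → ∃ f : M → X, ∀ a b,
    dist a b ≤ ‖f a - f b‖ ∧ ‖f a - f b‖ ≤ (1 + ε) * dist a b

noncomputable def θ (n : ℕ) : ℝ := 1 / 8 - 1 / 8 * (1 / ((n:ℝ) + 1))

lemma θ0 (n : ℕ) : 0 ≤ θ n := by
  have : 1 / ((n:ℝ) + 1) ≤ 1 := by
    rw [div_le_one (by positivity)]; linarith [(Nat.cast_nonneg n : (0:ℝ) ≤ n)]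
  unfold θ; linarith

lemma θ1 (n : ℕ) : θ n < 1 / 8 := by
  have : 0 < 1 / ((n:ℝ) + 1) := by positivity
  unfold θ; linarith

noncomputable def f (n : ℕ) : (ℝ × ℝ) →ₗ[ℝ] ℂ × ℂ where
  toFun p := (⟨p.1 + θ n * p.2, √(1 - θ n ^ 2) * p.2⟩, ⟨p.1 - θ n * p.2, √(1 - θ n ^ 2) * p.2⟩)
  map_add' p q := by ext <;> apply Complex.ext <;> simp <;> ring
  map_smul' c p := by ext <;> apply Complex.ext <;> simp <;> ring

lemma nsq (n : ℕ) (p : ℝ × ℝ) : ‖f n p‖ ^ 2 = p.1 ^ 2 + p.2 ^ 2 + 2 * θ n * |p.1 * p.2| := by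
  have h0 := θ0 n
  have h1 := θ1 n
  have s : √(1 - θ n ^ 2) * √(1 - θ n ^ 2) = 1 - θ n ^ 2 := Real.mul_self_sqrt (by nlinarith)
  have a : ‖(f n p).1‖ ^ 2 = p.1 ^ 2 + p.2 ^ 2 + 2 * θ n * (p.1 * p.2) := by
    rw [Complex.sq_norm, Complex.normSq_apply]
    change (p.1 + θ n * p.2) * (p.1 + θ n * p.2) +
      √(1 - θ n ^ 2) * p.2 * (√(1 - θ n ^ 2) * p.2) = _
    linear_combination p.2 ^ 2 * s
  have b : ‖(f n p).2‖ ^ 2 = p.1 ^ 2 + p.2 ^ 2 - 2 * θ n * (p.1 * p.2) := by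
    rw [Complex.sq_norm, Complex.normSq_apply]
    change (p.1 - θ n * p.2) * (p.1 - θ n * p.2) +
      √(1 - θ n ^ 2) * p.2 * (√(1 - θ n ^ 2) * p.2) = _
    linear_combination p.2 ^ 2 * s
  rw [Prod.norm_def]
  rcases le_total ‖(f n p).1‖ ‖(f n p).2‖ with h | h
  · have := pow_le_pow_left₀ (norm_nonneg _) h 2
    rw [max_eq_right h]
    rcases abs_cases (p.1 * p.2) with k | k <;> rw [k.1] <;>
      nlinarith [mul_nonneg h0 (abs_nonneg (p.1 * p.2))]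
  · have := pow_le_pow_left₀ (norm_nonneg _) h 2
    rw [max_eq_left h]
    rcases abs_cases (p.1 * p.2) with k | k <;> rw [k.1] <;>
      nlinarith [mul_nonneg h0 (abs_nonneg (p.1 * p.2))]

abbrev E (n : ℕ) : Type := LinearMap.range (f n)

instance (n : ℕ) : CompleteSpace (E n) := FiniteDimensional.complete ℝ _

lemma ab2 (a b : ℝ) : 2 * |a * b| ≤ a ^ 2 + b ^ 2 := by
  rcases abs_cases (a * b) with k | k <;> nlinarith [sq_nonneg (a - b), sq_nonneg (a + b)]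

lemma NJ (n : ℕ) (u v : E n) :
    ‖u + v‖ ^ 2 + ‖u - v‖ ^ 2 ≤ 2 * (1 + θ n) * (‖u‖ ^ 2 + ‖v‖ ^ 2) := by
  obtain ⟨_, p, rfl⟩ := u
  obtain ⟨_, q, rfl⟩ := v
  change ‖f n p + f n q‖ ^ 2 + ‖f n p - f n q‖ ^ 2 ≤ _ * (‖f n p‖ ^ 2 + ‖f n q‖ ^ 2)
  rw [← map_add, ← map_sub, nsq, nsq, nsq, nsq]
  simp only [Prod.fst_add, Prod.snd_add, Prod.fst_sub, Prod.snd_sub]
  have h0 := θ0 n
  have a1 := mul_le_mul_of_nonneg_left (ab2 (p.1 + q.1) (p.2 + q.2)) h0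
  have a2 := mul_le_mul_of_nonneg_left (ab2 (p.1 - q.1) (p.2 - q.2)) h0
  have a3 : 0 ≤ (1 + θ n) * (θ n * |p.1 * p.2|) := by positivity
  have a4 : 0 ≤ (1 + θ n) * (θ n * |q.1 * q.2|) := by positivity
  nlinarith

lemma UC (n : ℕ) (u v : E n) : ‖u + v‖ ^ 2 + 1 / 2 * ‖u - v‖ ^ 2 ≤ 2 * ‖u‖ ^ 2 + 2 * ‖v‖ ^ 2 := by
  obtain ⟨_, p, rfl⟩ := u
  obtain ⟨_, q, rfl⟩ := v
  change ‖f n p + f n q‖ ^ 2 + 1 / 2 * ‖f n p - f n q‖ ^ 2 ≤ 2 * ‖f n p‖ ^ 2 + 2 * ‖f n q‖ ^ 2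
  rw [← map_add, ← map_sub, nsq, nsq, nsq, nsq]
  simp only [Prod.fst_add, Prod.snd_add, Prod.fst_sub, Prod.snd_sub]
  have h0 := θ0 n
  have h1 := θ1 n
  have a0 : |(p.1 + q.1) * (p.2 + q.2)| ≤ 2 * |p.1 * p.2| + 2 * |q.1 * q.2| +
      |(p.1 - q.1) * (p.2 - q.2)| := by
    rw [abs_le]
    constructor <;> nlinarith [le_abs_self (p.1 * p.2), neg_abs_le (p.1 * p.2),
      le_abs_self (q.1 * q.2), neg_abs_le (q.1 * q.2), le_abs_self ((p.1 - q.1) * (p.2 - q.2)),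
      neg_abs_le ((p.1 - q.1) * (p.2 - q.2))]
  have a1 := mul_le_mul_of_nonneg_left a0 h0
  have a2 := ab2 (p.1 - q.1) (p.2 - q.2)
  have a3 := mul_le_mul_of_nonneg_right h1.le (abs_nonneg ((p.1 - q.1) * (p.2 - q.2)))
  nlinarith [sq_nonneg (p.1 - q.1), sq_nonneg (p.2 - q.2)]

abbrev X : Type := lp E 2

lemma hs (x : X) : HasSum (fun i => ‖x i‖ ^ 2) (‖x‖ ^ 2) := by
  simpa using lp.hasSum_norm (by simp) x

lemma XUC (x y : X) : ‖x + y‖ ^ 2 + 1 / 2 * ‖x - y‖ ^ 2 ≤ 2 * ‖x‖ ^ 2 + 2 * ‖y‖ ^ 2 :=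
  hasSum_le (fun n => UC n (x n) (y n)) ((hs (x + y)).add ((hs (x - y)).mul_left _))
    (((hs x).mul_left _).add ((hs y).mul_left _))

lemma XNJ (x y : X) (h : x + y ≠ 0) :
    ‖x + y‖ ^ 2 + ‖x - y‖ ^ 2 < 9 / 4 * (‖x‖ ^ 2 + ‖y‖ ^ 2) := by
  obtain ⟨i, hi⟩ : ∃ i, (x + y) i ≠ 0 := by
    by_contra hc
    simp only [not_exists, not_not] at hc
    exact h (lp.ext (funext hc))
  refine hasSum_lt (i := i) (fun n => (NJ n (x n) (y n)).trans ?_) ((NJ i (x i) (y i)).trans_lt ?_)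
    ((hs (x + y)).add (hs (x - y))) (((hs x).add (hs y)).mul_left _)
  · exact mul_le_mul_of_nonneg_right (by linarith [θ1 n]) (by positivity)
  · refine mul_lt_mul_of_pos_right (by linarith [θ1 i]) ?_
    have h1 : 0 < ‖x i + y i‖ := norm_pos_iff.2 hi
    have h2 := norm_add_le (x i) (y i)
    nlinarith [norm_nonneg (x i), norm_nonneg (y i), sq_nonneg (‖x i‖ - ‖y i‖)]

noncomputable def pt (n : ℕ) : (ℝ × ℝ) →ₗ[ℝ] X :=
  (lp.lsingle 2 n).comp (f n).rangeRestrict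

lemma pt_sq (n : ℕ) (p : ℝ × ℝ) :
    ‖pt n p‖ ^ 2 = p.1 ^ 2 + p.2 ^ 2 + 2 * θ n * |p.1 * p.2| := by
  rw [← nsq]
  change ‖(lp.single 2 n ((f n).rangeRestrict p) : X)‖ ^ 2 = _
  rw [lp.norm_single (by norm_num)]; rfl

def M : Type := Fin 4

instance : Finite M := inferInstanceAs (Finite (Fin 4))

noncomputable def dd (a b : Fin 4) : ℝ :=
  if a = b then 0 else if (a.1 + b.1) % 2 = 0 then 3 / 2 else 1

noncomputable instance : MetricSpace M where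
  dist := dd
  dist_self := fun (a : Fin 4) => if_pos rfl
  dist_comm := fun (a b : Fin 4) => by fin_cases a <;> fin_cases b <;> simp [dd]
  dist_triangle := fun (a b c : Fin 4) => by
    fin_cases a <;> fin_cases b <;> fin_cases c <;> simp [dd] <;> norm_num
  eq_of_dist_eq_zero := fun {a b : Fin 4} h => by
    by_contra hn
    change dd a b = 0 at h
    unfold dd at h
    split_ifs at h with h1
    · exact hn h1
    all_goals norm_num at h

def cr : Fin 4 → ℝ × ℝ := ![(0, 0), (1, 0), (1, 1), (0, 1)]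

theorem result :
    ∃ (X : Type) (_ : NormedAddCommGroup X) (_ : NormedSpace ℝ X) (_ : CompleteSpace X)
      (M : Type) (_ : MetricSpace M), ¬ FiniteDimensional ℝ X ∧ UnifConvex X ∧ Finite M ∧
      AlmostIsoEmb M X ∧ ¬ IsoEmb M X := by
  refine ⟨X, inferInstance, inferInstance, inferInstance, M, inferInstance, fun h => ?_,
    fun ε e0 e2 => ⟨ε ^ 2 / 16, by positivity, fun x y hx hy h => ?_⟩, inferInstance,
    fun ε e0 => ?_, ?_⟩
  · have : ProperSpace X := FiniteDimensional.proper ℝ _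
    have n1 : ∀ n, ‖pt n (1, 0)‖ = 1 := fun n => by
      have := pt_sq n (1, 0)
      have h0 := norm_nonneg (pt n (1, 0))
      simp only [mul_zero, abs_zero] at this
      nlinarith
    obtain ⟨w, -, σ, s1, s2⟩ := (isCompact_closedBall (0:X) 1).tendsto_subseq
      (x := fun n => pt n (1, 0)) fun n => mem_closedBall_zero_iff.2 (n1 n).le
    obtain ⟨N, hN⟩ := Metric.cauchySeq_iff'.1 s2.cauchySeq 1 one_pos
    have h1 := hN (N + 1) (by omega)
    rw [dist_eq_norm] at h1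
    have h2 := (lp.norm_apply_le_norm (by norm_num) _ (σ N)).trans_lt h1
    have h3 : σ N ≠ σ (N + 1) := (s1 (by omega)).ne
    have h4 := n1 (σ N)
    change ‖(lp.single 2 _ ((f _).rangeRestrict (1, 0)) : X)‖ = _ at h4
    rw [lp.norm_single (by norm_num)] at h4
    change ‖(lp.single 2 _ ((f _).rangeRestrict (1, 0)) : X) (σ N) -
      (lp.single 2 _ ((f _).rangeRestrict (1, 0)) : X) (σ N)‖ < 1 at h2
    rw [lp.single_apply_ne _ _ _ h3, lp.single_apply_self, zero_sub, norm_neg] at h2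
    linarith
  · have h1 := XUC x y
    rw [norm_smul, Real.norm_of_nonneg (by norm_num)]
    have h2 := pow_le_pow_left₀ e0.le h 2
    have h3 := pow_le_one₀ (norm_nonneg _) hx (n := 2)
    have h4 := pow_le_one₀ (norm_nonneg _) hy (n := 2)
    nlinarith [sq_nonneg (‖x + y‖ - 2)]
  · obtain ⟨n, hn⟩ := exists_nat_one_div_lt e0
    have h0 := θ0 n
    have h1 := θ1 n
    have h2 : 9 / 4 ≤ (1 + ε) ^ 2 * (2 + 2 * θ n) := by
      have : 1 / 8 - ε / 8 ≤ θ n := by unfold θ; linarith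
      nlinarith [mul_nonneg h0 e0.le, mul_nonneg (mul_nonneg h0 e0.le) e0.le, sq_nonneg ε]
    refine ⟨fun a => (1 + ε) • pt n (cr a), fun (a b : Fin 4) => ?_⟩
    change dd a b ≤ _ ∧ _ ≤ _ * dd a b
    rw [← smul_sub, ← map_sub, norm_smul, Real.norm_of_nonneg (by linarith)]
    have k := pt_sq n (cr a - cr b)
    have k0 := norm_nonneg (pt n (cr a - cr b))
    generalize ‖pt n (cr a - cr b)‖ = r at k k0
    have c : (dd a b = 0 ∧ r ^ 2 = 0) ∨ (dd a b = 1 ∧ r ^ 2 = 1) ∨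
        (dd a b = 3 / 2 ∧ r ^ 2 = 2 + 2 * θ n) := by
      rw [k]
      fin_cases a <;> fin_cases b <;> simp [dd, cr] <;> norm_num
    rcases c with ⟨c1, c2⟩ | ⟨c1, c2⟩ | ⟨c1, c2⟩ <;> rw [c1]
    · obtain rfl : r = 0 := by simpa using c2
      simp
    · obtain rfl : r = 1 := by nlinarith
      constructor <;> linarith
    · refine ⟨(abs_le_of_sq_le_sq' ?_ (by positivity)).2, ?_⟩
      · rw [mul_pow, c2]; linarith
      · refine mul_le_mul_of_nonneg_left (abs_le_of_sq_le_sq' ?_ (by norm_num)).2 (by linarith)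
        linarith
  · rintro ⟨g, hg⟩
    have d : ∀ a b : Fin 4, ‖g a - g b‖ = dd a b := hg
    have s1 := d 1 0
    have s2 := d 2 1
    have s3 := d 3 2
    have s4 := d 0 3
    have s5 := d 2 0
    have s6 := d 1 3
    simp [dd] at s1 s2 s3 s4 s5 s6
    generalize g (0 : Fin 4) = a at *
    generalize g (1 : Fin 4) = b at *
    generalize g (2 : Fin 4) = c at *
    generalize g (3 : Fin 4) = e at *
    have p1 : (1 / 2 : ℝ) • ((b - a) - (e - c)) + (1 / 2 : ℝ) • ((c - b) - (a - e)) = c - a := by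
      module
    have p2 : (1 / 2 : ℝ) • ((b - a) - (e - c)) - (1 / 2 : ℝ) • ((c - b) - (a - e)) = b - e := by
      module
    have := XNJ ((1 / 2 : ℝ) • ((b - a) - (e - c))) ((1 / 2 : ℝ) • ((c - b) - (a - e)))
      (by rw [p1, ← norm_pos_iff, s5]; norm_num)
    rw [p1, p2, s5, s6, norm_smul, norm_smul, Real.norm_of_nonneg (by norm_num)] at this
    have q1 := norm_sub_le (b - a) (e - c)
    have q2 := norm_sub_le (c - b) (a - e)
    rw [s1, s3] at q1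
    rw [s2, s4] at q2
    nlinarith [norm_nonneg ((b - a) - (e - c)), norm_nonneg ((c - b) - (a - e))]

end Pool.Agent.Results.MP_6d826c_an.Counter
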